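import Pool.Agent.H24.UG.T7

/-!
Module USV: the selection changes slowly (adapted from `Pool.Agent.H34.AG.SLV`).
-/

set_option autoImplicit false

open MeasureTheory ProbabilityTheory Filter Topology Finset
open scoped Nat ENNReal

namespace Pool.Agent.H63.UG

open Pool.Agent.H24.UG
open Pool.Agent.H67.AG (avgP ul Inv Rt Av SA kap JJ TT InvZ nxt triv tow XN PN TN XX PX TX prX Fac
  Tup dl Dlt Mis bd κ₀ Sw SwE)

/-! ### iterates -/

theorem slv_TT {X : Type} [MeasurableSpace X] [StandardBorelSpace X] (T : X ≃ᵐ X) (n : ℕ)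
    (q : X × X) : (TT T)^[n] q = (T^[n] q.1, T^[n] q.2) := by
  induction n generalizing q with
  | zero => rfl
  | succ n ih =>
    rw [Function.iterate_succ_apply, ih, Function.iterate_succ_apply, Function.iterate_succ_apply]
    rfl

theorem slv_TX {X : Type} [MeasurableSpace X] [StandardBorelSpace X] (T : X ≃ᵐ X) (m n : ℕ)
    (q : XX X m) : (TX T m)^[n] q =
      ((T^[n] q.1.1, T^[n] q.1.2), (fun b => T^[n] (q.2.1 b), T^[n] q.2.2)) := by
  induction n generalizing q with
  | zero => rfl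
  | succ n ih =>
    rw [Function.iterate_succ_apply, ih]
    simp only [Function.iterate_succ_apply]
    rfl

/-! ### the total mismatch -/

section mis

variable (c : CxE)

/-- the total mismatch -/
noncomputable def gs (q : c.X × c.X) : ℝ := ∑ i, dl c.D1 c.D2 i q

theorem slv_dl_nonneg (i : Fin c.k) (q : c.X × c.X) : 0 ≤ dl c.D1 c.D2 i q := by
  unfold dl
  split_ifs <;> norm_num

theorem slv_dl_le (i : Fin c.k) (q : c.X × c.X) : dl c.D1 c.D2 i q ≤ 1 := by
  unfold dl
  split_ifs <;> norm_num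

theorem slv_gs_nonneg (q : c.X × c.X) : 0 ≤ gs c q := sum_nonneg fun i _ => slv_dl_nonneg c i q

theorem slv_gs_le (q : c.X × c.X) : gs c q ≤ c.k := by
  unfold gs
  calc ∑ i, dl c.D1 c.D2 i q ≤ ∑ _i : Fin c.k, (1 : ℝ) := sum_le_sum fun i _ => slv_dl_le c i q
    _ = c.k := by simp

theorem slv_gs_symm (x y : c.X) : gs c (x, y) = gs c (y, x) := by
  unfold gs
  refine sum_congr rfl fun i _ => ?_
  unfold dl
  by_cases h : c.D1 i (x, y) = c.D2 i (x, y)
  · rw [if_pos h, if_pos (show c.D1 i (y, x) = c.D2 i (y, x) from h.symm)]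
  · rw [if_neg h, if_neg (show ¬ c.D1 i (y, x) = c.D2 i (y, x) from fun e => h e.symm)]

theorem slv_gs_tri (x y z : c.X) : gs c (x, z) ≤ gs c (x, y) + gs c (y, z) := by
  unfold gs
  rw [← sum_add_distrib]
  refine sum_le_sum fun i _ => ?_
  have h1 := slv_dl_nonneg c i (x, y)
  have h2 := slv_dl_nonneg c i (y, z)
  by_cases h : c.D1 i (x, z) = c.D2 i (x, z)
  · have h3 : dl c.D1 c.D2 i (x, z) = 0 := by unfold dl; rw [if_pos h]
    rw [h3]
    linarith
  · have h3 : dl c.D1 c.D2 i (x, z) = 1 := by unfold dl; rw [if_neg h]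
    rw [h3]
    by_cases h4 : c.D1 i (x, y) = c.D2 i (x, y)
    · have h5 : ¬ c.D1 i (y, z) = c.D2 i (y, z) := fun e => h (h4.trans e)
      have h6 : dl c.D1 c.D2 i (y, z) = 1 := by unfold dl; rw [if_neg h5]
      rw [h6]
      linarith
    · have h6 : dl c.D1 c.D2 i (x, y) = 1 := by unfold dl; rw [if_neg h4]
      rw [h6]
      linarith

theorem slv_dL_eq (W L : ℕ) (q : c.X × c.X) :
    c.dL W L q = (∑ l ∈ range L, gs c ((TT c.T)^[W * l] q)) / L := by
  unfold CxE.dL Av gs
  rw [← sum_div, sum_comm]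

theorem slv_dL_nonneg (W L : ℕ) (q : c.X × c.X) : 0 ≤ c.dL W L q := by
  rw [slv_dL_eq]
  exact div_nonneg (sum_nonneg fun l _ => slv_gs_nonneg c _) (Nat.cast_nonneg L)

theorem slv_dL_symm (W L : ℕ) (x y : c.X) : c.dL W L (x, y) = c.dL W L (y, x) := by
  rw [slv_dL_eq, slv_dL_eq]
  congr 1
  refine sum_congr rfl fun l _ => ?_
  rw [slv_TT, slv_TT]
  exact slv_gs_symm c _ _

theorem slv_dL_tri (W L : ℕ) (x y z : c.X) :
    c.dL W L (x, z) ≤ c.dL W L (x, y) + c.dL W L (y, z) := by
  rw [slv_dL_eq, slv_dL_eq, slv_dL_eq, ← add_div, ← sum_add_distrib]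
  refine div_le_div_of_nonneg_right (sum_le_sum fun l _ => ?_) (Nat.cast_nonneg L)
  rw [slv_TT, slv_TT, slv_TT]
  exact slv_gs_tri c _ _ _

theorem slv_dL_shift (W L l : ℕ) (q : c.X × c.X) :
    |c.dL W L ((TT c.T)^[W * l] q) - c.dL W L q| ≤ (c.k : ℝ) * l / L := by
  set g : ℕ → ℝ := fun j => gs c ((TT c.T)^[W * j] q) with hg
  have h0 : ∀ j, 0 ≤ g j := fun j => slv_gs_nonneg c _
  have h1 : ∀ j, g j ≤ c.k := fun j => slv_gs_le c _
  have h2 : ∑ j ∈ range L, gs c ((TT c.T)^[W * j] ((TT c.T)^[W * l] q)) =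
      ∑ j ∈ range L, g (l + j) := by
    refine sum_congr rfl fun j _ => ?_
    simp only [hg]
    rw [← Function.iterate_add_apply, ← mul_add, add_comm j l]
  have h3 : ∑ j ∈ range L, g (l + j) = ∑ j ∈ range (l + L), g j - ∑ j ∈ range l, g j := by
    rw [sum_range_add]
    ring
  have h4 : ∑ j ∈ range (l + L), g j = ∑ j ∈ range L, g j + ∑ j ∈ range l, g (L + j) := by
    rw [add_comm l L, sum_range_add]
  have h5 : ∀ f : ℕ → ℝ, (∀ j, 0 ≤ f j) → (∀ j, f j ≤ c.k) →
      0 ≤ ∑ j ∈ range l, f j ∧ ∑ j ∈ range l, f j ≤ (c.k : ℝ) * l := by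
    intro f hf0 hf1
    refine ⟨sum_nonneg fun j _ => hf0 j, ?_⟩
    calc ∑ j ∈ range l, f j ≤ ∑ _j ∈ range l, (c.k : ℝ) := sum_le_sum fun j _ => hf1 j
      _ = (c.k : ℝ) * l := by rw [sum_const, card_range, nsmul_eq_mul]; ring
  have h6 := h5 g h0 h1
  have h7 := h5 (fun j => g (L + j)) (fun j => h0 _) (fun j => h1 _)
  rw [slv_dL_eq, slv_dL_eq, h2, h3, h4, ← sub_div, abs_div,
    abs_of_nonneg (Nat.cast_nonneg L : (0 : ℝ) ≤ (L : ℝ))]
  refine div_le_div_of_nonneg_right ?_ (Nat.cast_nonneg L)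
  change |∑ j ∈ range L, g j + ∑ j ∈ range l, g (L + j) - ∑ j ∈ range l, g j -
    ∑ j ∈ range L, g j| ≤ _
  rw [abs_le]
  constructor
  · linarith [h6.1, h6.2, h7.1, h7.2]
  · linarith [h6.1, h6.2, h7.1, h7.2]

end mis

/-! ### measurability -/

section meas

variable (c : CxE)

theorem slv_Dt_meas (i : Fin c.k) : Measurable (c.Dt i) := by
  unfold Cx.Dt
  exact c.Dm.comp (c.T.measurable.iterate _)

theorem slv_dl_meas (i : Fin c.k) : Measurable (dl c.D1 c.D2 i) := by
  unfold dl
  refine Measurable.ite ?_ measurable_const measurable_const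
  exact measurableSet_eq_fun ((slv_Dt_meas c i).comp measurable_fst)
    ((slv_Dt_meas c i).comp measurable_snd)

theorem slv_dL_meas (W L : ℕ) : Measurable (c.dL W L) := by
  unfold CxE.dL Av
  refine Finset.measurable_sum _ fun i _ => ?_
  refine Measurable.div_const (Finset.measurable_sum _ fun l _ => ?_) _
  exact (slv_dl_meas c i).comp ((TT c.T).measurable.iterate _)

/-- the first element -/
noncomputable def slvs (n : ℕ) (s : Finset (Fin (n + 1))) : Fin (n + 1) :=
  if h : s.Nonempty then s.min' h else 0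

open Classical in
theorem slv_sel_eq (W L n : ℕ) (B : Set c.X) (q : XX c.X (n + 1)) : c.sel W L n B q =
    if q.1.1 ∈ B then slvs n (univ.filter fun b => c.dL W L (q.2.1 b, q.2.2) ≤ c.γ / 2) else 0 := by
  unfold CxE.sel slvs
  by_cases h1 : q.1.1 ∈ B
  · by_cases h2 : (univ.filter fun b => c.dL W L (q.2.1 b, q.2.2) ≤ c.γ / 2).Nonempty
    · rw [dif_pos ⟨h2, h1⟩, if_pos h1, dif_pos h2]
    · rw [dif_neg (fun h => h2 h.1), if_pos h1, dif_neg h2]
  · rw [dif_neg (fun h => h1 h.2), if_neg h1]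

open Classical in
theorem slv_sel_meas (W L n : ℕ) (B : Set c.X) (hB : MeasurableSet B) :
    Measurable (c.sel W L n B) := by
  have h0 : c.sel W L n B = fun q : XX c.X (n + 1) => if q.1.1 ∈ B then
      slvs n (univ.filter fun b => c.dL W L (q.2.1 b, q.2.2) ≤ c.γ / 2) else 0 :=
    funext fun q => slv_sel_eq c W L n B q
  rw [h0]
  refine Measurable.ite ?_ ?_ measurable_const
  · exact (measurable_fst.comp measurable_fst) hB
  · let _ : MeasurableSpace (Finset (Fin (n + 1))) := ⊤
    have h1 : Measurable fun q : XX c.X (n + 1) =>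
        (univ.filter fun b => c.dL W L (q.2.1 b, q.2.2) ≤ c.γ / 2) := by
      refine measurable_to_countable' fun S => ?_
      have h2 : (fun q : XX c.X (n + 1) =>
          (univ.filter fun b => c.dL W L (q.2.1 b, q.2.2) ≤ c.γ / 2)) ⁻¹' {S} =
          ⋂ b : Fin (n + 1), {q | c.dL W L (q.2.1 b, q.2.2) ≤ c.γ / 2 ↔ b ∈ S} := by
        ext q
        simp only [Set.mem_preimage, Set.mem_singleton_iff, Set.mem_iInter, Set.mem_ofPred_eq,
          Finset.ext_iff, mem_filter, mem_univ, true_and]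
      rw [h2]
      refine MeasurableSet.iInter fun b => ?_
      have h3 : MeasurableSet {q : XX c.X (n + 1) | c.dL W L (q.2.1 b, q.2.2) ≤ c.γ / 2} := by
        refine measurableSet_le ?_ measurable_const
        refine (slv_dL_meas c W L).comp ?_
        exact ((measurable_pi_apply b).comp (measurable_fst.comp measurable_snd)).prodMk
          (measurable_snd.comp measurable_snd)
      by_cases hb : b ∈ S
      · simpa only [hb, iff_true] using h3
      · have h4 : {q : XX c.X (n + 1) | c.dL W L (q.2.1 b, q.2.2) ≤ c.γ / 2 ↔ b ∈ S} =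
            {q | c.dL W L (q.2.1 b, q.2.2) ≤ c.γ / 2}ᶜ := by
          ext q
          simp only [hb, iff_false]
          rfl
        rw [h4]
        exact h3.compl
    exact (measurable_from_top (f := slvs n)).comp h1

end meas

/-! ### the selection on good configurations -/

section det

variable (c : CxE) (Z : SA c.X)

theorem slv_gap (W L n : ℕ) (B : Set c.X) (q : XX c.X (n + 1)) (hq : q ∈ c.GG Z W L n B)
    (b : Fin (n + 1)) :
    c.dL W L (q.2.1 b, q.2.2) ≤ c.γ / 50 ∨ 9 / 10 * c.γ ≤ c.dL W L (q.2.1 b, q.2.2) := by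
  have hγ0 := c.γ0
  have hγ1 := c.γ1
  have hm : c.m1 ≤ 81 / 100000 * c.γ := by
    unfold Cx.m1
    nlinarith
  obtain ⟨-, ⟨b0, h0⟩, h1⟩ := hq
  by_cases hb : b = b0
  · left
    rw [hb]
    linarith
  · obtain ⟨h2, h3⟩ := h1 b b0 hb
    rw [abs_le] at h2
    have h4 := slv_dL_tri c W L (q.2.1 b) (q.2.1 b0) q.2.2
    have h5 := slv_dL_tri c W L (q.2.1 b) q.2.2 (q.2.1 b0)
    rw [slv_dL_symm c W L q.2.2 (q.2.1 b0)] at h5
    rcases h3 with h3 | h3
    · left
      linarith [h2.1, h2.2]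
    · right
      linarith [h2.1, h2.2]

theorem slv_mem_iff {W : ℕ} {B : Set c.X} (hB : MeasurableSet[Inv c.T W] B) (l : ℕ) (x : c.X) :
    c.T^[W * l] x ∈ B ↔ x ∈ B := by
  have h1 : (c.T^[W]) ⁻¹' B = B := (MeasurableSpace.measurableSet_invariants.1 hB).2
  induction l generalizing x with
  | zero => simp
  | succ l ih =>
    rw [mul_add, mul_one, Function.iterate_add_apply]
    refine (ih _).trans ?_
    change x ∈ (c.T^[W]) ⁻¹' B ↔ x ∈ B
    rw [h1]

theorem slv_det {W L n l : ℕ} {B : Set c.X} (hL : 0 < L) (hB : MeasurableSet[Inv c.T W] B)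
    (hl : 16 * (c.k : ℝ) * l ≤ c.γ * L) (q : XX c.X (n + 1))
    (hne : c.sel W L n B ((TX c.T (n + 1))^[W * l] q) ≠ c.sel W L n B q) :
    q ∈ c.BG Z W L n B ∨ (TX c.T (n + 1))^[W * l] q ∈ c.BG Z W L n B := by
  classical
  have hq1 : ((TX c.T (n + 1))^[W * l] q).1.1 = c.T^[W * l] q.1.1 := by rw [slv_TX]
  by_cases hz : q.1.1 ∈ B
  · have hz' : ((TX c.T (n + 1))^[W * l] q).1.1 ∈ B := by
      rw [hq1]
      exact (slv_mem_iff c hB l _).2 hz
    by_contra hcon
    push Not at hcon
    obtain ⟨h1, h2⟩ := hcon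
    have g1 : q ∈ c.GG Z W L n B := by
      by_contra h
      exact h1 ⟨hz, h⟩
    have g2 : (TX c.T (n + 1))^[W * l] q ∈ c.GG Z W L n B := by
      by_contra h
      exact h2 ⟨hz', h⟩
    refine hne ?_
    rw [slv_sel_eq, slv_sel_eq, if_pos hz, if_pos hz']
    congr 1
    refine filter_congr fun b _ => ?_
    have e1 := slv_gap c Z W L n B q g1 b
    have e2 := slv_gap c Z W L n B _ g2 b
    have e3 := slv_dL_shift c W L l (q.2.1 b, q.2.2)
    have e4 : (((TX c.T (n + 1))^[W * l] q).2.1 b, ((TX c.T (n + 1))^[W * l] q).2.2) =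
        (TT c.T)^[W * l] (q.2.1 b, q.2.2) := by
      rw [slv_TX, slv_TT]
    rw [e4] at e2 ⊢
    have hL' : (0 : ℝ) < L := by exact_mod_cast hL
    have hγ0 := c.γ0
    have e5 : (c.k : ℝ) * l / L ≤ c.γ / 16 := by
      rw [div_le_iff₀ hL']
      linarith
    rw [abs_le] at e3
    constructor
    · intro h
      rcases e1 with e1 | e1
      · linarith
      · exfalso
        linarith [e3.1, e3.2]
    · intro h
      rcases e2 with e2 | e2
      · linarith
      · exfalso
        linarith [e3.1, e3.2]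
  · exfalso
    refine hne ?_
    have hz' : ¬ ((TX c.T (n + 1))^[W * l] q).1.1 ∈ B := by
      rw [hq1]
      exact fun h => hz ((slv_mem_iff c hB l _).1 h)
    rw [slv_sel_eq, slv_sel_eq, if_neg hz, if_neg hz']

theorem slv_pre {Ω : Type} [MeasurableSpace Ω] (P : Measure Ω) [IsProbabilityMeasure P]
    {f : Ω → Ω} (hf : MeasurePreserving f P P) (A : Set Ω) : P.real (f ⁻¹' A) ≤ P.real A := by
  unfold Measure.real
  exact ENNReal.toReal_mono (measure_ne_top P A) (hf.measure_preimage_le A)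

theorem pf_USV : T_USV := by
  intro c Z B W L n l P _ hP hW hL hB
  have hBm : MeasurableSet B := (MeasurableSpace.measurableSet_invariants.1 hB).1
  have hit : ∀ m, MeasurePreserving ((TX c.T (n + 1))^[m]) P P := fun m => hP.iterate m
  have hstep : ∀ l : ℕ, 16 * (c.k : ℝ) * l ≤ c.γ * L →
      P.real {q | c.sel W L n B ((TX c.T (n + 1))^[W * l] q) ≠ c.sel W L n B q} ≤
      2 * P.real (c.BG Z W L n B) := by
    intro l hl
    have h1 : {q | c.sel W L n B ((TX c.T (n + 1))^[W * l] q) ≠ c.sel W L n B q} ⊆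
        c.BG Z W L n B ∪ ((TX c.T (n + 1))^[W * l]) ⁻¹' (c.BG Z W L n B) := by
      intro q hq
      exact slv_det c Z hL hB hl q hq
    calc P.real {q | c.sel W L n B ((TX c.T (n + 1))^[W * l] q) ≠ c.sel W L n B q}
        ≤ P.real (c.BG Z W L n B ∪ ((TX c.T (n + 1))^[W * l]) ⁻¹' (c.BG Z W L n B)) :=
          measureReal_mono h1
      _ ≤ P.real (c.BG Z W L n B) +
          P.real (((TX c.T (n + 1))^[W * l]) ⁻¹' (c.BG Z W L n B)) := measureReal_union_le _ _
      _ ≤ P.real (c.BG Z W L n B) + P.real (c.BG Z W L n B) :=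
          add_le_add le_rfl (slv_pre P (hit _) _)
      _ = 2 * P.real (c.BG Z W L n B) := by ring
  refine ⟨slv_sel_meas c W L n B hBm, hstep l, ?_⟩
  intro h g hLh hg hlL
  have hind : ∀ j : ℕ, ∀ l : ℕ, l ≤ j * h →
      P.real {q | c.sel W L n B ((TX c.T (n + 1))^[W * l] q) ≠ c.sel W L n B q} ≤
      j * (2 * P.real (c.BG Z W L n B)) := by
    intro j
    induction j with
    | zero =>
      intro l hl
      have hl0 : l = 0 := by omega
      have h1 : {q | c.sel W L n B ((TX c.T (n + 1))^[W * l] q) ≠ c.sel W L n B q} = ∅ := by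
        ext q
        constructor
        · intro hq
          refine absurd ?_ hq
          rw [hl0]
          rfl
        · intro hq
          exact absurd hq (Set.notMem_empty q)
      rw [h1]
      simp
    | succ j ih =>
      intro l hl
      set s : ℕ := min l h with hs
      have hs1 : s ≤ h := min_le_right _ _
      have hs2 : s ≤ l := min_le_left _ _
      have hs3 : l - s ≤ j * h := by
        rw [hs]
        have : (j + 1) * h = j * h + h := by ring
        omega
      have h2 := hstep s (by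
        have e1 : (s : ℝ) ≤ h := by exact_mod_cast hs1
        have e2 : (L : ℝ) = 16 * c.k * g * h := by rw [hLh]; push_cast; ring
        have e3 : (0 : ℝ) ≤ 16 * (c.k : ℝ) * h := by positivity
        have e4 : 16 * (c.k : ℝ) * s ≤ 16 * (c.k : ℝ) * h := by gcongr
        have e5 := mul_le_mul_of_nonneg_left hg e3
        rw [e2]
        linarith)
      have h3 := ih (l - s) hs3
      have h4 : {q | c.sel W L n B ((TX c.T (n + 1))^[W * l] q) ≠ c.sel W L n B q} ⊆
          ((TX c.T (n + 1))^[W * (l - s)]) ⁻¹'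
            {q | c.sel W L n B ((TX c.T (n + 1))^[W * s] q) ≠ c.sel W L n B q} ∪
          {q | c.sel W L n B ((TX c.T (n + 1))^[W * (l - s)] q) ≠ c.sel W L n B q} := by
        intro q hq
        by_contra hcon
        rw [Set.mem_union, not_or] at hcon
        obtain ⟨h5, h6⟩ := hcon
        have h7 : c.sel W L n B ((TX c.T (n + 1))^[W * (l - s)] q) = c.sel W L n B q := by
          by_contra h; exact h6 h
        have h8 : c.sel W L n B ((TX c.T (n + 1))^[W * s] ((TX c.T (n + 1))^[W * (l - s)] q)) =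
            c.sel W L n B ((TX c.T (n + 1))^[W * (l - s)] q) := by
          by_contra h; exact h5 h
        refine hq ?_
        rw [← h7, ← h8, ← Function.iterate_add_apply, ← mul_add, Nat.add_sub_cancel' hs2]
      calc P.real {q | c.sel W L n B ((TX c.T (n + 1))^[W * l] q) ≠ c.sel W L n B q}
          ≤ P.real (((TX c.T (n + 1))^[W * (l - s)]) ⁻¹'
            {q | c.sel W L n B ((TX c.T (n + 1))^[W * s] q) ≠ c.sel W L n B q} ∪
            {q | c.sel W L n B ((TX c.T (n + 1))^[W * (l - s)] q) ≠ c.sel W L n B q}) :=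
            measureReal_mono h4
        _ ≤ P.real (((TX c.T (n + 1))^[W * (l - s)]) ⁻¹'
            {q | c.sel W L n B ((TX c.T (n + 1))^[W * s] q) ≠ c.sel W L n B q}) +
            P.real {q | c.sel W L n B ((TX c.T (n + 1))^[W * (l - s)] q) ≠ c.sel W L n B q} :=
            measureReal_union_le _ _
        _ ≤ 2 * P.real (c.BG Z W L n B) + j * (2 * P.real (c.BG Z W L n B)) :=
            add_le_add ((slv_pre P (hit _) _).trans h2) h3
        _ = ((j + 1 : ℕ) : ℝ) * (2 * P.real (c.BG Z W L n B)) := by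
            push_cast
            ring
  have hfin := hind (16 * c.k * g) l (hLh ▸ hlL)
  refine hfin.trans (le_of_eq ?_)
  push_cast
  ring

end det

end Pool.Agent.H63.UG
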